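import Mathlib

/-!
# A nearly unconditional basis which is not truncation quasi-greedy: the norm

Block `j` has coordinates `(j, inl k)` of weight `1` and `(j, inr b)` of weight `(j+1)/(b+1)`.
The norming functionals live on one block:

* `T1`: sums over a finite set of total weight at most `2 (j+1)` with coefficients of modulus at
  most one;
* `T2`: `∑_{k ∈ D} x (j, inl k) - (|D| / Np j) ∑_{b ≤ j} x (j, inr b)` for the subsets `D` of
  `{0, ..., ⌊Np j⌋ - 1}`, where `Np j = (j+1) (1 + 1/2 + ... + 1/(j+1))`.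
-/

set_option autoImplicit false

namespace Run7.h35.NU

open Finset

/-- index set -/
abbrev Ix := ℕ × (ℕ ⊕ ℕ)

/-- weights -/
noncomputable def wt (i : Ix) : ℝ :=
  Sum.elim (fun _ => (1 : ℝ)) (fun b => ((i.1 : ℝ) + 1) / ((b : ℝ) + 1)) i.2

lemma wt_inl (j k : ℕ) : wt (j, Sum.inl k) = 1 := rfl

lemma wt_inr (j b : ℕ) : wt (j, Sum.inr b) = ((j : ℝ) + 1) / ((b : ℝ) + 1) := rfl

/-- harmonic numbers -/
noncomputable def Hm (j : ℕ) : ℝ := ∑ b ∈ range (j + 1), 1 / ((b : ℝ) + 1)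

noncomputable def Np (j : ℕ) : ℝ := ((j : ℝ) + 1) * Hm j

lemma Hm_ge (j : ℕ) : 1 ≤ Hm j := by
  unfold Hm
  have h := Finset.single_le_sum (f := fun b : ℕ => 1 / ((b : ℝ) + 1)) (s := range (j + 1))
    (fun i _ => by positivity) (mem_range.2 (Nat.succ_pos j))
  simpa using h

lemma Np_pos (j : ℕ) : 0 < Np j := by
  have := Hm_ge j
  unfold Np
  positivity

def IsT1 (p : ℕ × Finset Ix × (Ix → ℝ)) : Prop :=
  (∀ i ∈ p.2.1, i.1 = p.1) ∧ (∀ i, |p.2.2 i| ≤ 1) ∧ ∑ i ∈ p.2.1, wt i ≤ 2 * ((p.1 : ℝ) + 1)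

def IsT2 (p : ℕ × Finset ℕ) : Prop := ∀ k ∈ p.2, k < ⌊Np p.1⌋₊

lemma card_le_Np {j : ℕ} {D : Finset ℕ} (hD : ∀ k ∈ D, k < ⌊Np j⌋₊) : (D.card : ℝ) ≤ Np j := by
  have h1 : D ⊆ range ⌊Np j⌋₊ := fun k hk => mem_range.2 (hD k hk)
  have h2 := card_le_card h1
  rw [card_range] at h2
  have h3 : (D.card : ℝ) ≤ (⌊Np j⌋₊ : ℝ) := by exact_mod_cast h2
  exact h3.trans (Nat.floor_le (Np_pos j).le)

/-- the norming functionals -/
def Lam : Type := {p : ℕ × Finset Ix × (Ix → ℝ) // IsT1 p} ⊕ {p : ℕ × Finset ℕ // IsT2 p}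

instance : TopologicalSpace Lam := ⊥
instance : DiscreteTopology Lam := ⟨rfl⟩

noncomputable def ev1 (p : ℕ × Finset Ix × (Ix → ℝ)) : (Ix → ℝ) →ₗ[ℝ] ℝ :=
  ∑ i ∈ p.2.1, p.2.2 i • LinearMap.proj i

noncomputable def ev2 (p : ℕ × Finset ℕ) : (Ix → ℝ) →ₗ[ℝ] ℝ :=
  ∑ k ∈ p.2, LinearMap.proj (p.1, Sum.inl k) -
    ((p.2.card : ℝ) / Np p.1) • ∑ b ∈ range (p.1 + 1), LinearMap.proj (p.1, Sum.inr b)

lemma ev1_apply (p : ℕ × Finset Ix × (Ix → ℝ)) (x : Ix → ℝ) :
    ev1 p x = ∑ i ∈ p.2.1, p.2.2 i * x i := by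
  simp [ev1, LinearMap.sum_apply]

lemma ev2_apply (p : ℕ × Finset ℕ) (x : Ix → ℝ) :
    ev2 p x = ∑ k ∈ p.2, x (p.1, Sum.inl k) -
      ((p.2.card : ℝ) / Np p.1) * ∑ b ∈ range (p.1 + 1), x (p.1, Sum.inr b) := by
  simp [ev2, LinearMap.sum_apply]

noncomputable def ev (p : Lam) : (Ix → ℝ) →ₗ[ℝ] ℝ :=
  Sum.elim (fun p => ev1 p.1) (fun p => ev2 p.1) p

/-- `q` bounds all the functionals at `x` -/
def Bd (x : Ix → ℝ) (q : ℝ) : Prop := ∀ p : Lam, |ev p x| ≤ q

lemma Bd.neg {x : Ix → ℝ} {q : ℝ} (h : Bd x q) : Bd (-x) q := by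
  intro p
  rw [map_neg, abs_neg]
  exact h p

lemma Bd.one {x : Ix → ℝ} {q : ℝ} (h : Bd x q) (j : ℕ) (F : Finset Ix)
    (hF : ∀ i ∈ F, i.1 = j) (hw : ∑ i ∈ F, wt i ≤ 2 * ((j : ℝ) + 1)) :
    ∑ i ∈ F, |x i| ≤ q := by
  have h1 : IsT1 (j, F, fun i => if x i < 0 then -1 else 1) := by
    refine ⟨hF, fun i => ?_, hw⟩
    show |(if x i < 0 then (-1 : ℝ) else 1)| ≤ 1
    split_ifs <;> simp
  have h2 := h (Sum.inl ⟨_, h1⟩)
  have h3 : ev (Sum.inl ⟨_, h1⟩) x = ∑ i ∈ F, |x i| := by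
    show ev1 _ x = _
    rw [ev1_apply]
    refine sum_congr rfl fun i _ => ?_
    show (if x i < 0 then (-1 : ℝ) else 1) * x i = |x i|
    split_ifs with h
    · rw [abs_of_neg h]; ring
    · rw [abs_of_nonneg (not_lt.1 h)]; ring
  rw [h3] at h2
  exact (le_abs_self _).trans h2

lemma Bd.two {x : Ix → ℝ} {q : ℝ} (h : Bd x q) (j : ℕ) (D : Finset ℕ)
    (hD : ∀ k ∈ D, k < ⌊Np j⌋₊) :
    |∑ k ∈ D, x (j, Sum.inl k) -
      ((D.card : ℝ) / Np j) * ∑ b ∈ range (j + 1), x (j, Sum.inr b)| ≤ q := by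
  have h1 : IsT2 (j, D) := hD
  have h2 := h (Sum.inr ⟨_, h1⟩)
  have h3 : ev (Sum.inr ⟨_, h1⟩) x = ev2 (j, D) x := rfl
  rw [h3, ev2_apply] at h2
  exact h2

lemma Bd.nonneg {x : Ix → ℝ} {q : ℝ} (h : Bd x q) : 0 ≤ q := by
  have := h.one 0 ∅ (by simp) (by simp)
  simpa using this

/-- few large coordinates in the spread part -/
lemma Bd.spread {x : Ix → ℝ} {q a : ℝ} (h : Bd x q) (ha : 0 < a) (j : ℕ) (E : Finset ℕ)
    (hE : ∀ b ∈ E, a ≤ |x (j, Sum.inr b)|) : a * E.card ≤ 2 * q := by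
  set k := E.card with hk
  rcases Nat.eq_zero_or_pos k with hk0 | hk0
  · rw [hk0]
    have := h.nonneg
    simp
    linarith
  set E' := E.filter (fun b => k ≤ 2 * (b + 1)) with hE'
  have hcard : k ≤ 2 * E'.card := by
    have h1 : (E.filter (fun b => ¬ k ≤ 2 * (b + 1))) ⊆ range (k / 2) := by
      intro b hb
      rw [mem_filter] at hb
      rw [mem_range]
      omega
    have h2 := card_le_card h1
    rw [card_range] at h2
    have h3 := Finset.card_filter_add_card_filter_not (s := E) (fun b => k ≤ 2 * (b + 1))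
    rw [← hE', ← hk] at h3
    omega
  have hinj : Function.Injective (fun b : ℕ => ((j, Sum.inr b) : Ix)) := by
    intro a b hab
    simpa using hab
  have h4 := h.one j (E'.map ⟨_, hinj⟩) (by
    intro i hi
    rw [mem_map] at hi
    obtain ⟨b, _, rfl⟩ := hi
    rfl) (by
    rw [sum_map]
    have : ∀ b ∈ E', wt (j, Sum.inr b) ≤ 2 * ((j : ℝ) + 1) / k := by
      intro b hb
      rw [hE', mem_filter] at hb
      rw [wt_inr]
      have hb2 : (k : ℝ) ≤ 2 * ((b : ℝ) + 1) := by exact_mod_cast hb.2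
      have hk1 : (0 : ℝ) < k := by exact_mod_cast hk0
      rw [div_le_div_iff₀ (by positivity) hk1]
      have : (0 : ℝ) ≤ (j : ℝ) + 1 := by positivity
      nlinarith
    calc ∑ b ∈ E', wt ((⟨_, hinj⟩ : ℕ ↪ Ix) b) ≤ ∑ b ∈ E', 2 * ((j : ℝ) + 1) / k :=
          sum_le_sum this
      _ = E'.card * (2 * ((j : ℝ) + 1) / k) := by rw [sum_const, nsmul_eq_mul]
      _ ≤ k * (2 * ((j : ℝ) + 1) / k) := by
          apply mul_le_mul_of_nonneg_right _ (by positivity)
          have : E'.card ≤ k := card_le_card (filter_subset _ _)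
          exact_mod_cast this
      _ = 2 * ((j : ℝ) + 1) := by
          have hk1 : (k : ℝ) ≠ 0 := by exact_mod_cast hk0.ne'
          field_simp)
  rw [sum_map] at h4
  have h5 : a * E'.card ≤ q := by
    calc a * (E'.card : ℝ) = ∑ b ∈ E', a := by rw [sum_const, nsmul_eq_mul]; ring
      _ ≤ ∑ b ∈ E', |x ((⟨_, hinj⟩ : ℕ ↪ Ix) b)| :=
          sum_le_sum fun b hb => hE b (mem_of_mem_filter b hb)
      _ ≤ q := h4
  have h6 : (k : ℝ) ≤ 2 * E'.card := by exact_mod_cast hcard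
  nlinarith

/-- few coordinates `≥ a` in an admissible part of the flat part -/
lemma Bd.flat {x : Ix → ℝ} {q a : ℝ} (h : Bd x q) (ha : 0 < a) (ha1 : a ≤ 1)
    (hx : ∀ i, |x i| ≤ 1) (j : ℕ) (P : Finset ℕ)
    (hP : ∀ k ∈ P, a ≤ x (j, Sum.inl k)) (hc' : ∀ k ∈ P, k < ⌊Np j⌋₊) :
    a ^ 2 * P.card ≤ 2 * q := by
  have hc := card_le_Np hc'
  have hq := h.nonneg
  have hH := Hm_ge j
  have hN := Np_pos j
  have hj : (0 : ℝ) < (j : ℝ) + 1 := by positivity
  have hPc : (0 : ℝ) ≤ P.card := by positivity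
  rcases le_or_gt (2 / a) (Hm j) with hbig | hsmall
  · have h1 := (abs_le.1 (h.two j P hc')).2
    have h2 : a * P.card ≤ ∑ k ∈ P, x (j, Sum.inl k) := by
      calc a * (P.card : ℝ) = ∑ k ∈ P, a := by rw [sum_const, nsmul_eq_mul]; ring
        _ ≤ _ := sum_le_sum hP
    have h3 : ∑ b ∈ range (j + 1), x (j, Sum.inr b) ≤ (j : ℝ) + 1 := by
      calc ∑ b ∈ range (j + 1), x (j, Sum.inr b) ≤ ∑ b ∈ range (j + 1), (1 : ℝ) :=
            sum_le_sum fun b _ => (le_abs_self _).trans (hx _)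
        _ = (j : ℝ) + 1 := by simp
    have h4 : (P.card : ℝ) / Np j * ∑ b ∈ range (j + 1), x (j, Sum.inr b) ≤ P.card * (a / 2) := by
      calc (P.card : ℝ) / Np j * ∑ b ∈ range (j + 1), x (j, Sum.inr b)
          ≤ (P.card : ℝ) / Np j * ((j : ℝ) + 1) :=
            mul_le_mul_of_nonneg_left h3 (by positivity)
        _ = (P.card : ℝ) * (1 / Hm j) := by
            unfold Np
            have : Hm j ≠ 0 := by linarith
            field_simp
        _ ≤ P.card * (a / 2) := by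
            apply mul_le_mul_of_nonneg_left _ hPc
            rw [div_le_iff₀ (by linarith)]
            rw [div_le_iff₀ ha] at hbig
            linarith
    have h5 : a * P.card ≤ 2 * q := by nlinarith
    have h6 : a ^ 2 * P.card ≤ a * P.card := by
      have : 0 ≤ a * P.card := by positivity
      nlinarith
    linarith
  · have hinj : Function.Injective (fun b : ℕ => ((j, Sum.inl b) : Ix)) := by
      intro a b hab
      simpa using hab
    obtain ⟨P', hP', hcP'⟩ := Finset.exists_subset_card_eq (s := P)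
      (n := min P.card (2 * (j + 1))) (min_le_left _ _)
    have h4 := h.one j (P'.map ⟨_, hinj⟩) (by
      intro i hi
      rw [mem_map] at hi
      obtain ⟨b, _, rfl⟩ := hi
      rfl) (by
      rw [sum_map]
      have : ∑ k ∈ P', wt ((⟨_, hinj⟩ : ℕ ↪ Ix) k) = P'.card := by
        have h9 : ∑ k ∈ P', wt ((⟨_, hinj⟩ : ℕ ↪ Ix) k) = ∑ k ∈ P', (1 : ℝ) :=
          sum_congr rfl (fun k _ => wt_inl j k)
        rw [h9]
        simp
      rw [this, hcP']
      have h7 : min P.card (2 * (j + 1)) ≤ 2 * (j + 1) := min_le_right _ _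
      exact_mod_cast h7)
    rw [sum_map] at h4
    have h5 : a * P'.card ≤ q := by
      calc a * (P'.card : ℝ) = ∑ b ∈ P', a := by rw [sum_const, nsmul_eq_mul]; ring
        _ ≤ ∑ b ∈ P', |x ((⟨_, hinj⟩ : ℕ ↪ Ix) b)| :=
            sum_le_sum fun b hb => (hP b (hP' hb)).trans (le_abs_self _)
        _ ≤ q := h4
    rcases le_or_gt P.card (2 * (j + 1)) with hle | hgt
    · rw [min_eq_left hle] at hcP'
      rw [hcP'] at h5
      have h6 : a ^ 2 * P.card ≤ a * P.card := by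
        have : 0 ≤ a * P.card := by positivity
        nlinarith
      linarith
    · rw [min_eq_right hgt.le] at hcP'
      rw [hcP'] at h5
      push_cast at h5
      rw [lt_div_iff₀ ha] at hsmall
      have h8 : a * P.card ≤ 2 * ((j : ℝ) + 1) := by
        unfold Np at hc
        nlinarith
      have : a ^ 2 * P.card ≤ a * (2 * ((j : ℝ) + 1)) := by
        nlinarith
      linarith

end Run7.h35.NU
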