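import Mathlib
import Pool.Agent.Run7.h35.NU.Core

/-!
# A nearly unconditional basis which is not truncation quasi-greedy: the space

The space is the closed linear span, in the bounded functions on the set of the norming
functionals, of the functions `p ↦ p (e_i)`.
-/

set_option autoImplicit false

namespace Run7.h35.NU

open Finset BoundedContinuousFunction
open scoped Topology

lemma ev_single_le (p : Lam) (i : Ix) : |ev p (Pi.single i 1)| ≤ 1 := by
  rcases p with ⟨⟨j, F, c⟩, h⟩ | ⟨⟨j, D⟩, h⟩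
  · show |ev1 (j, F, c) (Pi.single i 1)| ≤ 1
    rw [ev1_apply]
    have h1 : ∑ k ∈ F, c k * (Pi.single i (1 : ℝ) : Ix → ℝ) k = if i ∈ F then c i else 0 := by
      simp only [Pi.single_apply, mul_ite, mul_one, mul_zero]
      rw [Finset.sum_ite_eq']
    show |∑ k ∈ F, c k * (Pi.single i (1 : ℝ) : Ix → ℝ) k| ≤ 1
    rw [h1]
    split_ifs
    · exact h.2.1 i
    · simp
  · show |ev2 (j, D) (Pi.single i 1)| ≤ 1
    rw [ev2_apply]
    have hN := Np_pos j
    have hD : (D.card : ℝ) ≤ Np j := card_le_Np h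
    have h0 : (0 : ℝ) ≤ (D.card : ℝ) / Np j := by positivity
    have h1 : (D.card : ℝ) / Np j ≤ 1 := by rw [div_le_one hN]; exact hD
    show |∑ k ∈ D, (Pi.single i (1 : ℝ) : Ix → ℝ) (j, Sum.inl k) -
      ((D.card : ℝ) / Np j) * ∑ b ∈ range (j + 1), (Pi.single i (1 : ℝ) : Ix → ℝ) (j, Sum.inr b)|
        ≤ 1
    obtain ⟨i1, i2⟩ := i
    by_cases hj : i1 = j
    · subst hj
      rcases i2 with k | b
      · have e1 : ∀ b : ℕ, (Pi.single ((i1, Sum.inl k) : Ix) (1 : ℝ) : Ix → ℝ)
            (i1, Sum.inr b) = 0 := by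
          intro b
          rw [Pi.single_apply, if_neg]
          simp
        have e2 : ∀ k' : ℕ, (Pi.single ((i1, Sum.inl k) : Ix) (1 : ℝ) : Ix → ℝ)
            (i1, Sum.inl k') = if k' = k then 1 else 0 := by
          intro k'
          rw [Pi.single_apply]
          congr 1
          simp
        simp only [e1, e2, sum_const_zero, mul_zero, sub_zero]
        rw [Finset.sum_ite_eq']
        split_ifs <;> simp
      · have e1 : ∀ k : ℕ, (Pi.single ((i1, Sum.inr b) : Ix) (1 : ℝ) : Ix → ℝ)
            (i1, Sum.inl k) = 0 := by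
          intro k
          rw [Pi.single_apply, if_neg]
          simp
        have e2 : ∀ b' : ℕ, (Pi.single ((i1, Sum.inr b) : Ix) (1 : ℝ) : Ix → ℝ)
            (i1, Sum.inr b') = if b' = b then 1 else 0 := by
          intro b'
          rw [Pi.single_apply]
          congr 1
          simp
        simp only [e1, e2, sum_const_zero, zero_sub, abs_neg]
        rw [Finset.sum_ite_eq']
        split_ifs
        · rw [mul_one, abs_of_nonneg h0]; exact h1
        · simp
    · have e1 : ∀ s, (Pi.single ((i1, i2) : Ix) (1 : ℝ) : Ix → ℝ) (j, s) = 0 := by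
        intro s
        rw [Pi.single_apply, if_neg]
        intro h
        exact hj (Prod.mk.inj h).1.symm
      simp [e1]

/-- the basis vectors -/
noncomputable def xb (i : Ix) : Lam →ᵇ ℝ :=
  BoundedContinuousFunction.ofNormedAddCommGroupDiscrete (fun p => ev p (Pi.single i 1)) 1
    (fun p => by rw [Real.norm_eq_abs]; exact ev_single_le p i)

lemma xb_apply (i : Ix) (p : Lam) : xb i p = ev p (Pi.single i 1) := rfl

lemma isT1_dl (i : Ix) : IsT1 (i.1, {i}, fun _ => 1) := by
  refine ⟨fun k hk => ?_, fun _ => by simp, ?_⟩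
  · have hk' : k ∈ ({i} : Finset Ix) := hk
    rw [mem_singleton] at hk'
    rw [hk']
  · show ∑ k ∈ ({i} : Finset Ix), wt k ≤ 2 * ((i.1 : ℝ) + 1)
    rw [sum_singleton]
    obtain ⟨j, s⟩ := i
    rcases s with k | b
    · rw [wt_inl]
      show (1 : ℝ) ≤ 2 * ((j : ℝ) + 1)
      have : (0 : ℝ) ≤ j := Nat.cast_nonneg j
      linarith
    · rw [wt_inr]
      show ((j : ℝ) + 1) / ((b : ℝ) + 1) ≤ 2 * ((j : ℝ) + 1)
      have h1 : (0 : ℝ) ≤ j := Nat.cast_nonneg j
      have h2 : (0 : ℝ) ≤ b := Nat.cast_nonneg b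
      rw [div_le_iff₀ (by positivity)]
      nlinarith

/-- the coordinate functionals -/
def dl (i : Ix) : Lam := Sum.inl ⟨_, isT1_dl i⟩

lemma ev_dl (i : Ix) (x : Ix → ℝ) : ev (dl i) x = x i := by
  show ev1 (i.1, {i}, fun _ => 1) x = x i
  rw [ev1_apply]
  show ∑ k ∈ ({i} : Finset Ix), 1 * x k = x i
  rw [sum_singleton, one_mul]

/-- coordinates -/
def co (f : Lam →ᵇ ℝ) : Ix → ℝ := fun i => f (dl i)

lemma co_xb (i : Ix) : co (xb i) = Pi.single i 1 := by
  funext k
  show xb i (dl k) = _
  rw [xb_apply, ev_dl]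

lemma co_add (f g : Lam →ᵇ ℝ) : co (f + g) = co f + co g := rfl

lemma co_smul (c : ℝ) (f : Lam →ᵇ ℝ) : co (c • f) = c • co f := rfl

lemma continuous_co : Continuous co :=
  continuous_pi fun i => (BoundedContinuousFunction.evalCLM ℝ (dl i)).continuous

lemma continuous_ev (p : Lam) : Continuous (ev p) := by
  rcases p with ⟨⟨j, F, c⟩, h⟩ | ⟨⟨j, D⟩, h⟩
  · show Continuous (fun x => ev1 (j, F, c) x)
    simp only [ev1_apply]
    fun_prop
  · show Continuous (fun x => ev2 (j, D) x)
    simp only [ev2_apply]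
    fun_prop

/-- the space -/
noncomputable def Ks : Submodule ℝ (Lam →ᵇ ℝ) :=
  (Submodule.span ℝ (Set.range xb)).topologicalClosure

lemma xb_mem (i : Ix) : xb i ∈ Ks :=
  Submodule.le_topologicalClosure _ (Submodule.subset_span ⟨i, rfl⟩)

lemma Ks_rep {f : Lam →ᵇ ℝ} (hf : f ∈ Ks) (p : Lam) : f p = ev p (co f) := by
  let S : Submodule ℝ (Lam →ᵇ ℝ) :=
    { carrier := {f | ∀ p, f p = ev p (co f)}
      add_mem' := by
        intro f g hf hg p
        rw [co_add, map_add, ← hf p, ← hg p]
        rfl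
      zero_mem' := by
        intro p
        have : co (0 : Lam →ᵇ ℝ) = 0 := rfl
        rw [this, map_zero]
        rfl
      smul_mem' := by
        intro c f hf p
        rw [co_smul, map_smul, ← hf p]
        rfl }
  have hS : IsClosed (S : Set (Lam →ᵇ ℝ)) := by
    have : (S : Set (Lam →ᵇ ℝ)) = ⋂ p, {f | f p = ev p (co f)} := by
      ext f
      simp only [Set.mem_iInter, Set.mem_ofPred_eq]
      rfl
    rw [this]
    refine isClosed_iInter fun p => isClosed_eq ?_ ?_
    · exact (BoundedContinuousFunction.evalCLM ℝ p).continuous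
    · exact (continuous_ev p).comp continuous_co
  have h1 : Submodule.span ℝ (Set.range xb) ≤ S := by
    rw [Submodule.span_le]
    rintro _ ⟨i, rfl⟩ p
    rw [co_xb, xb_apply]
  have h2 : Ks ≤ S := Submodule.topologicalClosure_minimal _ h1 hS
  exact h2 hf p

lemma Ks_bd {f : Lam →ᵇ ℝ} (hf : f ∈ Ks) : Bd (co f) ‖f‖ := by
  intro p
  rw [← Ks_rep hf p, ← Real.norm_eq_abs]
  exact f.norm_coe_le_norm p

instance : CompleteSpace Ks := (Submodule.isClosed_topologicalClosure _).completeSpace_coe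

/-- values of finite combinations -/
lemma sum_xb_apply (A : Finset Ix) (c : Ix → ℝ) (p : Lam) :
    (∑ i ∈ A, c i • xb i) p = ev p (fun i => if i ∈ A then c i else 0) := by
  have h1 : (fun i => if i ∈ A then c i else 0) = ∑ i ∈ A, c i • (Pi.single i (1 : ℝ) : Ix → ℝ) := by
    funext k
    rw [Finset.sum_apply]
    simp only [Pi.smul_apply, Pi.single_apply, smul_eq_mul, mul_ite, mul_one, mul_zero]
    rw [Finset.sum_ite_eq]
  rw [h1, map_sum]
  have h2 : (∑ i ∈ A, c i • xb i) p = ∑ i ∈ A, (c i • xb i) p := by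
    have := map_sum (BoundedContinuousFunction.evalCLM ℝ p) (fun i => c i • xb i) A
    exact this
  rw [h2]
  refine sum_congr rfl fun i _ => ?_
  rw [map_smul]
  rfl

end Run7.h35.NU
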