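import Mathlib
import Pool.Agent.Run7.h35.NU.Space

/-!
# A nearly unconditional basis which is not truncation quasi-greedy: the estimates
-/

set_option autoImplicit false

namespace Run7.h35.NU

open Finset BoundedContinuousFunction
open scoped Topology

/-- near unconditionality, one functional -/
lemma near_ev {x : Ix → ℝ} {q a : ℝ} (h : Bd x q) (ha : 0 < a) (ha1 : a ≤ 1)
    (hx : ∀ i, |x i| ≤ 1) (A : Finset Ix) (hA : ∀ i ∈ A, a ≤ |x i|) (p : Lam) :
    |ev p (fun i => if i ∈ A then x i else 0)| ≤ 4 / a ^ 2 * q := by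
  have hq := h.nonneg
  have ha2 : a ^ 2 ≤ 1 := by nlinarith
  have ha3 : 0 < a ^ 2 := by positivity
  have hc4 : (1 : ℝ) ≤ 4 / a ^ 2 := by rw [le_div_iff₀ ha3]; linarith
  rcases p with ⟨⟨j, F, c⟩, hp⟩ | ⟨⟨j, D⟩, hp⟩
  · show |ev1 (j, F, c) _| ≤ _
    rw [ev1_apply]
    show |∑ i ∈ F, c i * (if i ∈ A then x i else 0)| ≤ _
    calc |∑ i ∈ F, c i * (if i ∈ A then x i else 0)|
        ≤ ∑ i ∈ F, |c i * (if i ∈ A then x i else 0)| := abs_sum_le_sum_abs _ _
      _ ≤ ∑ i ∈ F, |x i| := by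
          refine sum_le_sum fun i _ => ?_
          rw [abs_mul]
          have h1 : |c i| ≤ 1 := hp.2.1 i
          split_ifs
          · calc |c i| * |x i| ≤ 1 * |x i| := mul_le_mul_of_nonneg_right h1 (abs_nonneg _)
              _ = |x i| := one_mul _
          · rw [abs_zero, mul_zero]
            exact abs_nonneg _
      _ ≤ q := h.one j F hp.1 hp.2.2
      _ = 1 * q := (one_mul q).symm
      _ ≤ 4 / a ^ 2 * q := mul_le_mul_of_nonneg_right hc4 hq
  · have hD' : ∀ k ∈ D, k < ⌊Np j⌋₊ := hp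
    have hD : (D.card : ℝ) ≤ Np j := card_le_Np hD'
    have hN := Np_pos j
    show |ev2 (j, D) _| ≤ _
    rw [ev2_apply]
    show |∑ k ∈ D, (if ((j, Sum.inl k) : Ix) ∈ A then x (j, Sum.inl k) else 0) -
      ((D.card : ℝ) / Np j) * ∑ b ∈ range (j + 1),
        (if ((j, Sum.inr b) : Ix) ∈ A then x (j, Sum.inr b) else 0)| ≤ _
    -- flat part
    set P := D.filter (fun k => a ≤ x (j, Sum.inl k)) with hP
    set Q := D.filter (fun k => a ≤ (-x) (j, Sum.inl k)) with hQ
    have hPc : a ^ 2 * P.card ≤ 2 * q := by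
      exact h.flat ha ha1 hx j P (fun k hk => (mem_filter.1 hk).2)
        (fun k hk => hD' k (mem_of_mem_filter k hk))
    have hQc : a ^ 2 * Q.card ≤ 2 * q := by
      exact h.neg.flat ha ha1 (fun i => by rw [Pi.neg_apply, abs_neg]; exact hx i) j Q
        (fun k hk => (mem_filter.1 hk).2) (fun k hk => hD' k (mem_of_mem_filter k hk))
    have hup : ∑ k ∈ D, (if ((j, Sum.inl k) : Ix) ∈ A then x (j, Sum.inl k) else 0) ≤ P.card := by
      calc ∑ k ∈ D, (if ((j, Sum.inl k) : Ix) ∈ A then x (j, Sum.inl k) else 0)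
          ≤ ∑ k ∈ D, (if a ≤ x (j, Sum.inl k) then (1 : ℝ) else 0) := by
            refine sum_le_sum fun k _ => ?_
            have h1 := (abs_le.1 (hx (j, Sum.inl k))).2
            split_ifs with h2 h3 h3
            · exact h1
            · have h4 := hA _ h2
              rcases le_or_gt 0 (x (j, Sum.inl k)) with h5 | h5
              · rw [abs_of_nonneg h5] at h4
                exact absurd h4 h3
              · exact h5.le
            · exact zero_le_one
            · exact le_refl _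
        _ = P.card := by rw [← sum_filter, sum_const, nsmul_eq_mul, mul_one, hP]
    have hlo : -(Q.card : ℝ) ≤
        ∑ k ∈ D, (if ((j, Sum.inl k) : Ix) ∈ A then x (j, Sum.inl k) else 0) := by
      calc -(Q.card : ℝ) = -∑ k ∈ D, (if a ≤ (-x) (j, Sum.inl k) then (1 : ℝ) else 0) := by
            rw [← sum_filter, sum_const, nsmul_eq_mul, mul_one, hQ]
        _ = ∑ k ∈ D, -(if a ≤ (-x) (j, Sum.inl k) then (1 : ℝ) else 0) := by
            rw [sum_neg_distrib]
        _ ≤ _ := by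
            refine sum_le_sum fun k _ => ?_
            have h1 := (abs_le.1 (hx (j, Sum.inl k))).1
            rw [Pi.neg_apply]
            split_ifs with h2 h3 h3
            · exact h1
            · linarith
            · have h4 := hA _ h3
              rcases le_or_gt 0 (x (j, Sum.inl k)) with h5 | h5
              · linarith
              · rw [abs_of_neg h5] at h4
                exact absurd h4 h2
            · simp
    have hflat : |∑ k ∈ D, (if ((j, Sum.inl k) : Ix) ∈ A then x (j, Sum.inl k) else 0)|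
        ≤ 2 / a ^ 2 * q := by
      have e1 : (P.card : ℝ) ≤ 2 / a ^ 2 * q := by
        rw [div_mul_eq_mul_div, le_div_iff₀ ha3]; linarith
      have e2 : (Q.card : ℝ) ≤ 2 / a ^ 2 * q := by
        rw [div_mul_eq_mul_div, le_div_iff₀ ha3]; linarith
      rw [abs_le]
      constructor <;> linarith
    -- spread part
    set E := (range (j + 1)).filter (fun b => ((j, Sum.inr b) : Ix) ∈ A) with hE
    have hEc : a * E.card ≤ 2 * q :=
      h.spread ha j E (fun b hb => hA _ (mem_filter.1 hb).2)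
    have hsp : |∑ b ∈ range (j + 1), (if ((j, Sum.inr b) : Ix) ∈ A then x (j, Sum.inr b) else 0)|
        ≤ E.card := by
      calc |∑ b ∈ range (j + 1), (if ((j, Sum.inr b) : Ix) ∈ A then x (j, Sum.inr b) else 0)|
          ≤ ∑ b ∈ range (j + 1),
            |if ((j, Sum.inr b) : Ix) ∈ A then x (j, Sum.inr b) else 0| :=
            abs_sum_le_sum_abs _ _
        _ ≤ ∑ b ∈ range (j + 1), (if ((j, Sum.inr b) : Ix) ∈ A then (1 : ℝ) else 0) := by
            refine sum_le_sum fun b _ => ?_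
            split_ifs
            · exact hx _
            · simp
        _ = E.card := by rw [← sum_filter, sum_const, nsmul_eq_mul, mul_one, hE]
    have hE2 : (E.card : ℝ) ≤ 2 / a ^ 2 * q := by
      rw [div_mul_eq_mul_div, le_div_iff₀ ha3]
      have : (0 : ℝ) ≤ E.card := by positivity
      nlinarith
    have hr0 : 0 ≤ (D.card : ℝ) / Np j := by positivity
    have hr1 : (D.card : ℝ) / Np j ≤ 1 := by rw [div_le_one hN]; exact hD
    calc |∑ k ∈ D, (if ((j, Sum.inl k) : Ix) ∈ A then x (j, Sum.inl k) else 0) -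
        ((D.card : ℝ) / Np j) * ∑ b ∈ range (j + 1),
          (if ((j, Sum.inr b) : Ix) ∈ A then x (j, Sum.inr b) else 0)|
        ≤ |∑ k ∈ D, (if ((j, Sum.inl k) : Ix) ∈ A then x (j, Sum.inl k) else 0)| +
          |((D.card : ℝ) / Np j) * ∑ b ∈ range (j + 1),
            (if ((j, Sum.inr b) : Ix) ∈ A then x (j, Sum.inr b) else 0)| := abs_sub _ _
      _ ≤ 2 / a ^ 2 * q + 2 / a ^ 2 * q := by
          apply add_le_add hflat
          rw [abs_mul, abs_of_nonneg hr0]
          calc (D.card : ℝ) / Np j * |∑ b ∈ range (j + 1),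
                (if ((j, Sum.inr b) : Ix) ∈ A then x (j, Sum.inr b) else 0)|
              ≤ 1 * |∑ b ∈ range (j + 1),
                (if ((j, Sum.inr b) : Ix) ∈ A then x (j, Sum.inr b) else 0)| :=
                mul_le_mul_of_nonneg_right hr1 (abs_nonneg _)
            _ ≤ 2 / a ^ 2 * q := by rw [one_mul]; exact hsp.trans hE2
      _ = 4 / a ^ 2 * q := by ring

/-- near unconditionality in the space -/
lemma near_norm {f : Lam →ᵇ ℝ} (hf : f ∈ Ks) {a : ℝ} (ha : 0 < a) (ha1 : a ≤ 1)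
    (hx : ∀ i, |co f i| ≤ 1) (A : Finset Ix) (hA : ∀ i ∈ A, a ≤ |co f i|) :
    ‖∑ i ∈ A, co f i • xb i‖ ≤ 4 / a ^ 2 * ‖f‖ := by
  rw [BoundedContinuousFunction.norm_le (by positivity)]
  intro p
  rw [sum_xb_apply, Real.norm_eq_abs]
  exact near_ev (Ks_bd hf) ha ha1 hx A hA p

/-- the harmonic numbers are unbounded -/
lemma Hm_unbounded (M : ℝ) : ∃ j, M ≤ Hm j := by
  have h := Real.tendsto_sum_range_one_div_nat_succ_atTop
  have h2 := (Filter.tendsto_add_atTop_iff_nat 1).2 h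
  obtain ⟨j, hj⟩ := (h2.eventually (Filter.eventually_ge_atTop M)).exists
  exact ⟨j, hj⟩

/-- support of the bad vector -/
noncomputable def Sf (j : ℕ) : Finset Ix :=
  ((range ⌊Np j⌋₊).map ⟨fun k : ℕ => ((j, Sum.inl k) : Ix), fun a b h => by simpa using h⟩) ∪
    ((range (j + 1)).map ⟨fun b : ℕ => ((j, Sum.inr b) : Ix), fun a b h => by simpa using h⟩)

lemma mem_Sf_inl (j k : ℕ) : ((j, Sum.inl k) : Ix) ∈ Sf j ↔ k < ⌊Np j⌋₊ := by
  unfold Sf
  rw [mem_union, mem_map, mem_map]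
  constructor
  · rintro (⟨k', hk', h⟩ | ⟨b, _, h⟩)
    · have h2 : ((j, Sum.inl k') : Ix) = (j, Sum.inl k) := h
      have h3 : k' = k := by simpa using h2
      rw [← h3]
      exact mem_range.1 hk'
    · have h2 : ((j, Sum.inr b) : Ix) = (j, Sum.inl k) := h
      simp at h2
  · intro h
    exact Or.inl ⟨k, mem_range.2 h, rfl⟩

lemma mem_Sf_inr (j b : ℕ) : ((j, Sum.inr b) : Ix) ∈ Sf j ↔ b < j + 1 := by
  unfold Sf
  rw [mem_union, mem_map, mem_map]
  constructor
  · rintro (⟨k', _, h⟩ | ⟨b', hb, h⟩)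
    · have h2 : ((j, Sum.inl k') : Ix) = (j, Sum.inr b) := h
      simp at h2
    · have h2 : ((j, Sum.inr b') : Ix) = (j, Sum.inr b) := h
      have h3 : b' = b := by simpa using h2
      rw [← h3]
      exact mem_range.1 hb
  · intro h
    exact Or.inr ⟨b, mem_range.2 h, rfl⟩

lemma fst_of_mem_Sf {j : ℕ} {i : Ix} (hi : i ∈ Sf j) : i.1 = j := by
  unfold Sf at hi
  rw [mem_union, mem_map, mem_map] at hi
  rcases hi with ⟨k, _, rfl⟩ | ⟨b, hb, rfl⟩ <;> rfl

lemma sum_inr_wt (j : ℕ) : ∑ b ∈ range (j + 1), wt (j, Sum.inr b) = Np j := by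
  unfold Np Hm
  rw [mul_sum]
  refine sum_congr rfl fun b _ => ?_
  rw [wt_inr]
  ring

lemma one_le_wt {j : ℕ} {i : Ix} (hi : i ∈ Sf j) : 1 ≤ wt i := by
  unfold Sf at hi
  rw [mem_union, mem_map, mem_map] at hi
  rcases hi with ⟨k, _, rfl⟩ | ⟨b, hb, rfl⟩
  · exact le_refl _
  · show 1 ≤ wt (j, Sum.inr b)
    rw [wt_inr]
    rw [mem_range] at hb
    have h1 : ((b : ℝ) + 1) ≤ (j : ℝ) + 1 := by
      have : (b : ℝ) ≤ j := by exact_mod_cast Nat.lt_succ_iff.1 hb
      linarith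
    rw [le_div_iff₀ (by positivity)]
    linarith

lemma wt_nonneg (i : Ix) : 0 ≤ wt i := by
  obtain ⟨j, s⟩ := i
  rcases s with k | b
  · rw [wt_inl]; exact zero_le_one
  · rw [wt_inr]; positivity

/-- the bad vector has a small norm -/
lemma bad_norm (j : ℕ) : ‖∑ i ∈ Sf j, wt i • xb i‖ ≤ 2 * ((j : ℝ) + 1) := by
  rw [BoundedContinuousFunction.norm_le (by positivity)]
  intro p
  rw [sum_xb_apply, Real.norm_eq_abs]
  rcases p with ⟨⟨j', F, c⟩, hp⟩ | ⟨⟨j', D⟩, hp⟩
  · show |ev1 (j', F, c) _| ≤ _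
    rw [ev1_apply]
    show |∑ i ∈ F, c i * (if i ∈ Sf j then wt i else 0)| ≤ _
    have hFj : ∀ i ∈ F, i.1 = j' := hp.1
    calc |∑ i ∈ F, c i * (if i ∈ Sf j then wt i else 0)|
        ≤ ∑ i ∈ F, |c i * (if i ∈ Sf j then wt i else 0)| := abs_sum_le_sum_abs _ _
      _ ≤ 2 * ((j : ℝ) + 1) := by
          by_cases hjj : j' = j
          · subst hjj
            refine le_trans (sum_le_sum (g := fun i => wt i) fun i _ => ?_) hp.2.2
            rw [abs_mul]
            have h1 : |c i| ≤ 1 := hp.2.1 i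
            have h2 := wt_nonneg i
            split_ifs
            · rw [abs_of_nonneg h2]
              calc |c i| * wt i ≤ 1 * wt i := mul_le_mul_of_nonneg_right h1 h2
                _ = wt i := one_mul _
            · rw [abs_zero, mul_zero]
              exact h2
          · have : ∑ i ∈ F, |c i * (if i ∈ Sf j then wt i else 0)| = 0 := by
              refine sum_eq_zero fun i hi => ?_
              rw [if_neg, mul_zero, abs_zero]
              intro h
              exact hjj ((hFj i hi).symm.trans (fst_of_mem_Sf h))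
            rw [this]
            positivity
  · show |ev2 (j', D) _| ≤ _
    rw [ev2_apply]
    show |∑ k ∈ D, (if ((j', Sum.inl k) : Ix) ∈ Sf j then wt (j', Sum.inl k) else 0) -
      ((D.card : ℝ) / Np j') * ∑ b ∈ range (j' + 1),
        (if ((j', Sum.inr b) : Ix) ∈ Sf j then wt (j', Sum.inr b) else 0)| ≤ _
    have hD : ∀ k ∈ D, k < ⌊Np j'⌋₊ := hp
    have hN := Np_pos j'
    by_cases hjj : j' = j
    · subst hjj
      have h1 : ∑ k ∈ D, (if ((j', Sum.inl k) : Ix) ∈ Sf j' then wt (j', Sum.inl k) else 0) =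
          D.card := by
        rw [sum_congr rfl (g := fun _ => (1 : ℝ)) (fun k hk => by
          rw [if_pos ((mem_Sf_inl j' k).2 (hD k hk)), wt_inl])]
        simp
      have h2 : ∑ b ∈ range (j' + 1),
          (if ((j', Sum.inr b) : Ix) ∈ Sf j' then wt (j', Sum.inr b) else 0) = Np j' := by
        rw [← sum_inr_wt j']
        refine sum_congr rfl fun b hb => ?_
        rw [if_pos ((mem_Sf_inr j' b).2 (mem_range.1 hb))]
      rw [h1, h2, div_mul_cancel₀ _ hN.ne', sub_self, abs_zero]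
      positivity
    · have h1 : ∑ k ∈ D, (if ((j', Sum.inl k) : Ix) ∈ Sf j then wt (j', Sum.inl k) else 0) = 0 :=
        sum_eq_zero fun k _ => if_neg fun h => hjj (fst_of_mem_Sf h)
      have h2 : ∑ b ∈ range (j' + 1),
          (if ((j', Sum.inr b) : Ix) ∈ Sf j then wt (j', Sum.inr b) else 0) = 0 :=
        sum_eq_zero fun k _ => if_neg fun h => hjj (fst_of_mem_Sf h)
      rw [h1, h2, mul_zero, sub_self, abs_zero]
      positivity

/-- the vector of signs has a large norm -/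
lemma sign_norm (j : ℕ) : Np j - 1 - ((j : ℝ) + 1) ≤ ‖∑ i ∈ Sf j, (1 : ℝ) • xb i‖ := by
  have hN := Np_pos j
  have hT : IsT2 (j, range ⌊Np j⌋₊) := fun k hk => mem_range.1 hk
  have h1 := (∑ i ∈ Sf j, (1 : ℝ) • xb i).norm_coe_le_norm (Sum.inr ⟨_, hT⟩)
  have h0 := sum_xb_apply (Sf j) (fun _ => (1 : ℝ)) (Sum.inr ⟨_, hT⟩)
  rw [show (∑ i ∈ Sf j, (1 : ℝ) • xb i) (Sum.inr ⟨_, hT⟩) = _ from h0, Real.norm_eq_abs] at h1
  refine le_trans ?_ ((le_abs_self _).trans h1)
  show _ ≤ ev2 (j, range ⌊Np j⌋₊) _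
  rw [ev2_apply]
  show Np j - 1 - ((j : ℝ) + 1) ≤
    ∑ k ∈ range ⌊Np j⌋₊, (if ((j, Sum.inl k) : Ix) ∈ Sf j then (1 : ℝ) else 0) -
      (((range ⌊Np j⌋₊).card : ℝ) / Np j) * ∑ b ∈ range (j + 1),
        (if ((j, Sum.inr b) : Ix) ∈ Sf j then (1 : ℝ) else 0)
  have h2 : ∑ k ∈ range ⌊Np j⌋₊, (if ((j, Sum.inl k) : Ix) ∈ Sf j then (1 : ℝ) else 0) =
      ⌊Np j⌋₊ := by
    rw [sum_congr rfl (g := fun _ => (1 : ℝ)) (fun k hk => by
      rw [if_pos ((mem_Sf_inl j k).2 (mem_range.1 hk))])]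
    simp
  have h3 : ∑ b ∈ range (j + 1),
      (if ((j, Sum.inr b) : Ix) ∈ Sf j then (1 : ℝ) else 0) = (j : ℝ) + 1 := by
    rw [sum_congr rfl (g := fun _ => (1 : ℝ)) (fun k hk => by
      rw [if_pos ((mem_Sf_inr j k).2 (mem_range.1 hk))])]
    simp
  rw [h2, h3, card_range]
  have h4 : (⌊Np j⌋₊ : ℝ) ≤ Np j := Nat.floor_le hN.le
  have h5 : Np j < ⌊Np j⌋₊ + 1 := Nat.lt_floor_add_one _
  have h6 : (⌊Np j⌋₊ : ℝ) / Np j ≤ 1 := by rw [div_le_one hN]; exact h4
  have h7 : (⌊Np j⌋₊ : ℝ) / Np j * ((j : ℝ) + 1) ≤ 1 * ((j : ℝ) + 1) :=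
    mul_le_mul_of_nonneg_right h6 (by positivity)
  linarith

end Run7.h35.NU
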